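import Pool.Agent.P8H72.JF.Stm2

/-!
# Project JF: the connecting Dehn twists
-/

set_option autoImplicit false

namespace Pool.Agent.P8H42.JF

open Matrix Pool.Agent.P8H72.JF

/-- products which differ in two adjacent factors with the same product -/
theorem prod_adj {M : Type} [Monoid M] : ∀ (g : ℕ) (G G' : Fin g → M) (i j : Fin g), (j : ℕ) = i + 1 →
    (∀ k, k ≠ i → k ≠ j → G' k = G k) → G' i * G' j = G i * G j →
    (List.ofFn G').prod = (List.ofFn G).prod := by
  intro g
  induction g with
  | zero => intro G G' i; exact i.elim0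
  | succ g ih =>
    intro G G' i j hij hk hm
    rw [List.ofFn_succ, List.ofFn_succ, List.prod_cons, List.prod_cons]
    induction i using Fin.cases with
    | zero =>
      have hj : (j : ℕ) = 1 := by simpa using hij
      obtain ⟨g', rfl⟩ : ∃ g', g = g' + 1 := ⟨g - 1, by have := j.2; omega⟩
      have hj1 : j = (0 : Fin (g' + 1)).succ := Fin.ext (by simpa using hj)
      subst hj1
      rw [List.ofFn_succ, List.ofFn_succ, List.prod_cons, List.prod_cons, ← mul_assoc, ← mul_assoc, hm]
      congr 3
      funext k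
      apply hk
      · exact Fin.succ_ne_zero _
      · intro h
        have := Fin.succ_injective _ h
        exact Fin.succ_ne_zero _ this
    | succ i =>
      induction j using Fin.cases with
      | zero => simp at hij
      | succ j =>
        have h1 : (j : ℕ) = i + 1 := by simpa using hij
        rw [hk 0 (Fin.succ_ne_zero _).symm (Fin.succ_ne_zero _).symm]
        congr 1
        exact ih (fun k => G k.succ) (fun k => G' k.succ) i j h1
          (fun k h2 h3 => hk k.succ (fun h => h2 (Fin.succ_injective _ h))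
            (fun h => h3 (Fin.succ_injective _ h))) hm

theorem id1 {G : Type} [Group G] (a b x y c : G) (hc : c = b⁻¹ * x * y * x⁻¹) :
    ((a * c) * (c⁻¹ * b * c) * (a * c)⁻¹ * (c⁻¹ * b * c)⁻¹) * ((c⁻¹ * x) * y * (c⁻¹ * x)⁻¹ * y⁻¹) =
      (a * b * a⁻¹ * b⁻¹) * (x * y * x⁻¹ * y⁻¹) := by
  subst hc
  group

theorem id2 {G : Type} [Group G] (a b x y c : G) (hc : c = b⁻¹ * x * y * x⁻¹) :
    ((a * c⁻¹) * (c * b * c⁻¹) * (a * c⁻¹)⁻¹ * (c * b * c⁻¹)⁻¹) * ((c * x) * y * (c * x)⁻¹ * y⁻¹) =
      (a * b * a⁻¹ * b⁻¹) * (x * y * x⁻¹ * y⁻¹) := by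
  subst hc
  group

section Tw

variable {g : ℕ} (i j : Fin g)

abbrev FG (g : ℕ) : Type := FreeGroup (Fin g ⊕ Fin g)

def ga (k : Fin g) : FG g := FreeGroup.of (Sum.inl k)
def gb (k : Fin g) : FG g := FreeGroup.of (Sum.inr k)

/-- the connecting curve -/
def cc : FG g := (gb i)⁻¹ * ga j * gb j * (ga j)⁻¹

/-- the images of the generators -/
def f1 : Fin g ⊕ Fin g → FG g := Sum.elim
  (fun k => if k = i then ga i * cc i j else if k = j then (cc i j)⁻¹ * ga j else ga k)
  (fun k => if k = i then (cc i j)⁻¹ * gb i * cc i j else gb k)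

/-- the images of the generators under the inverse -/
def f2 : Fin g ⊕ Fin g → FG g := Sum.elim
  (fun k => if k = i then ga i * (cc i j)⁻¹ else if k = j then cc i j * ga j else ga k)
  (fun k => if k = i then cc i j * gb i * (cc i j)⁻¹ else gb k)

variable {i j}

theorem lift_ga (f : Fin g ⊕ Fin g → FG g) (k : Fin g) : FreeGroup.lift f (ga k) = f (Sum.inl k) := by
  simp [ga]

theorem lift_gb (f : Fin g ⊕ Fin g → FG g) (k : Fin g) : FreeGroup.lift f (gb k) = f (Sum.inr k) := by
  simp [gb]

theorem f1_ai : f1 i j (Sum.inl i) = ga i * cc i j := by simp [f1]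
theorem f1_bi : f1 i j (Sum.inr i) = (cc i j)⁻¹ * gb i * cc i j := by simp [f1]
theorem f1_aj (h : i ≠ j) : f1 i j (Sum.inl j) = (cc i j)⁻¹ * ga j := by simp [f1, h.symm]
theorem f1_bj {k : Fin g} (h : k ≠ i) : f1 i j (Sum.inr k) = gb k := by simp [f1, h]
theorem f1_ak {k : Fin g} (h : k ≠ i) (h' : k ≠ j) : f1 i j (Sum.inl k) = ga k := by simp [f1, h, h']
theorem f2_ai : f2 i j (Sum.inl i) = ga i * (cc i j)⁻¹ := by simp [f2]
theorem f2_bi : f2 i j (Sum.inr i) = cc i j * gb i * (cc i j)⁻¹ := by simp [f2]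
theorem f2_aj (h : i ≠ j) : f2 i j (Sum.inl j) = cc i j * ga j := by simp [f2, h.symm]
theorem f2_bj {k : Fin g} (h : k ≠ i) : f2 i j (Sum.inr k) = gb k := by simp [f2, h]
theorem f2_ak {k : Fin g} (h : k ≠ i) (h' : k ≠ j) : f2 i j (Sum.inl k) = ga k := by simp [f2, h, h']

theorem f1_cc (h : i ≠ j) : FreeGroup.lift (f1 i j) (cc i j) = cc i j := by
  have e : FreeGroup.lift (f1 i j) (cc i j) = ((cc i j)⁻¹ * gb i * cc i j)⁻¹ * ((cc i j)⁻¹ * ga j) * gb j *
      ((cc i j)⁻¹ * ga j)⁻¹ := by
    conv_lhs => rw [cc]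
    rw [map_mul, map_mul, map_mul, map_inv, map_inv, lift_ga, lift_gb, lift_gb, f1_bi, f1_aj h,
      f1_bj h.symm]
  rw [e]
  unfold cc
  group

theorem f2_cc (h : i ≠ j) : FreeGroup.lift (f2 i j) (cc i j) = cc i j := by
  have e : FreeGroup.lift (f2 i j) (cc i j) = (cc i j * gb i * (cc i j)⁻¹)⁻¹ * (cc i j * ga j) * gb j *
      (cc i j * ga j)⁻¹ := by
    conv_lhs => rw [cc]
    rw [map_mul, map_mul, map_mul, map_inv, map_inv, lift_ga, lift_gb, lift_gb, f2_bi, f2_aj h,
      f2_bj h.symm]
  rw [e]
  unfold cc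
  group

theorem rel_eq (g : ℕ) : rel g = (List.ofFn (fun k : Fin g => ga k * gb k * (ga k)⁻¹ * (gb k)⁻¹)).prod := rfl

theorem f1_rel (hij : (j : ℕ) = i + 1) : FreeGroup.lift (f1 i j) (rel g) = rel g := by
  have hne : i ≠ j := by intro h; rw [h] at hij; omega
  rw [rel_eq, map_list_prod, List.map_ofFn]
  refine prod_adj g _ _ i j hij ?_ ?_
  · intro k h1 h2
    simp only [Function.comp, map_mul, map_inv, lift_ga, lift_gb]
    rw [f1_ak h1 h2, f1_bj h1]
  · simp only [Function.comp, map_mul, map_inv, lift_ga, lift_gb]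
    rw [f1_ai, f1_bi, f1_aj hne, f1_bj hne.symm]
    exact id1 _ _ _ _ _ rfl

theorem f2_rel (hij : (j : ℕ) = i + 1) : FreeGroup.lift (f2 i j) (rel g) = rel g := by
  have hne : i ≠ j := by intro h; rw [h] at hij; omega
  rw [rel_eq, map_list_prod, List.map_ofFn]
  refine prod_adj g _ _ i j hij ?_ ?_
  · intro k h1 h2
    simp only [Function.comp, map_mul, map_inv, lift_ga, lift_gb]
    rw [f2_ak h1 h2, f2_bj h1]
  · simp only [Function.comp, map_mul, map_inv, lift_ga, lift_gb]
    rw [f2_ai, f2_bi, f2_aj hne, f2_bj hne.symm]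
    exact id2 _ _ _ _ _ rfl

theorem f12 (h : i ≠ j) (x : Fin g ⊕ Fin g) : FreeGroup.lift (f1 i j) (f2 i j x) = FreeGroup.of x := by
  rcases x with k | k
  · by_cases hi : k = i
    · subst hi
      rw [f2_ai, map_mul, map_inv, f1_cc h, lift_ga, f1_ai]
      unfold ga; group
    · by_cases hj : k = j
      · subst hj
        rw [f2_aj h, map_mul, f1_cc h, lift_ga, f1_aj h]
        unfold ga; group
      · rw [f2_ak hi hj, lift_ga, f1_ak hi hj]; rfl
  · by_cases hi : k = i
    · subst hi
      rw [f2_bi, map_mul, map_mul, map_inv, f1_cc h, lift_gb, f1_bi]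
      unfold gb; group
    · rw [f2_bj hi, lift_gb, f1_bj hi]; rfl

theorem f21 (h : i ≠ j) (x : Fin g ⊕ Fin g) : FreeGroup.lift (f2 i j) (f1 i j x) = FreeGroup.of x := by
  rcases x with k | k
  · by_cases hi : k = i
    · subst hi
      rw [f1_ai, map_mul, f2_cc h, lift_ga, f2_ai]
      unfold ga; group
    · by_cases hj : k = j
      · subst hj
        rw [f1_aj h, map_mul, map_inv, f2_cc h, lift_ga, f2_aj h]
        unfold ga; group
      · rw [f1_ak hi hj, lift_ga, f2_ak hi hj]; rfl
  · by_cases hi : k = i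
    · subst hi
      rw [f1_bi, map_mul, map_mul, map_inv, f2_cc h, lift_gb, f2_bi]
      unfold gb; group
    · rw [f1_bj hi, lift_gb, f2_bj hi]; rfl

/-- endomorphisms of the free group which fix the relator act on the surface group -/
def desc (f : Fin g ⊕ Fin g → FG g) (hf : FreeGroup.lift f (rel g) = rel g) : Sg g →* Sg g :=
  PresentedGroup.toGroup (rels := {rel g}) (f := fun x => PresentedGroup.mk {rel g} (f x)) (fun r hr => by
    rw [Set.mem_singleton_iff] at hr
    subst hr
    have h1 : FreeGroup.lift (fun x => PresentedGroup.mk {rel g} (f x)) =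
        (PresentedGroup.mk {rel g}).comp (FreeGroup.lift f) := by
      ext x
      simp
    rw [h1, MonoidHom.comp_apply, hf]
    exact PresentedGroup.one_of_mem (Set.mem_singleton _))

theorem desc_mk (f : Fin g ⊕ Fin g → FG g) (hf : FreeGroup.lift f (rel g) = rel g) (w : FG g) :
    desc f hf (PresentedGroup.mk {rel g} w) = PresentedGroup.mk {rel g} (FreeGroup.lift f w) := by
  have h1 : (desc f hf).comp (PresentedGroup.mk {rel g}) =
      (PresentedGroup.mk {rel g}).comp (FreeGroup.lift f) := by
    ext x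
    simp only [MonoidHom.comp_apply, FreeGroup.lift_apply_of]
    exact PresentedGroup.toGroup.of _
  exact DFunLike.congr_fun h1 w

theorem hv_mk (w : FG g) : hv (PresentedGroup.mk {rel g} w) = Multiplicative.toAdd (fh g w) := by
  have h1 : (hm g).comp (PresentedGroup.mk {rel g}) = fh g := by
    apply FreeGroup.ext_hom
    intro x
    rw [MonoidHom.comp_apply]
    exact PresentedGroup.toGroup.of (rels := {rel g}) _
  unfold hv
  rw [← h1]
  rfl

end Tw

theorem twb : S_TWB := by
  intro g i j hij
  have hne : i ≠ j := by intro h; rw [h] at hij; omega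
  have e12 : ∀ x, desc (f1 i j) (f1_rel hij) (desc (f2 i j) (f2_rel hij) x) = x := by
    intro x
    obtain ⟨w, rfl⟩ := PresentedGroup.mk_surjective {rel g} x
    rw [desc_mk, desc_mk]
    congr 1
    have h1 : (FreeGroup.lift (f1 i j)).comp (FreeGroup.lift (f2 i j)) = MonoidHom.id (FG g) := by
      ext x
      simp [f12 hne]
    exact DFunLike.congr_fun h1 w
  have e21 : ∀ x, desc (f2 i j) (f2_rel hij) (desc (f1 i j) (f1_rel hij) x) = x := by
    intro x
    obtain ⟨w, rfl⟩ := PresentedGroup.mk_surjective {rel g} x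
    rw [desc_mk, desc_mk]
    congr 1
    have h1 : (FreeGroup.lift (f2 i j)).comp (FreeGroup.lift (f1 i j)) = MonoidHom.id (FG g) := by
      ext x
      simp [f21 hne]
    exact DFunLike.congr_fun h1 w
  refine ⟨MulEquiv.mk ⟨desc (f1 i j) (f1_rel hij), desc (f2 i j) (f2_rel hij), e21, e12⟩
    (map_mul _), ?_⟩
  intro x
  obtain ⟨w, rfl⟩ := PresentedGroup.mk_surjective {rel g} x
  change hv (desc (f1 i j) (f1_rel hij) (PresentedGroup.mk {rel g} w)) = _
  rw [desc_mk, hv_mk, hv_mk]
  -- compare two homomorphisms on the free group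
  obtain ⟨A, hA⟩ : ∃ A, A = (T (Matrix.single i j (1 : ℤ) + Matrix.single j i (1 : ℤ)
      - Matrix.single i i (1 : ℤ) - Matrix.single j j (1 : ℤ))).1 := ⟨_, rfl⟩
  rw [← hA]
  have key : (fh g).comp (FreeGroup.lift (f1 i j)) =
      (AddMonoidHom.toMultiplicative (Matrix.mulVecLin A).toAddMonoidHom).comp (fh g) := by
    apply FreeGroup.ext_hom
    intro x
    have hfa : ∀ k : Fin g, fh g (ga k) = Multiplicative.ofAdd (Pi.single (Sum.inl k) 1) := by
      intro k; simp [ga, fh]
    have hfb : ∀ k : Fin g, fh g (gb k) = Multiplicative.ofAdd (Pi.single (Sum.inr k) 1) := by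
      intro k; simp [gb, fh]
    have hcc : fh g (cc i j) = Multiplicative.ofAdd (Pi.single (Sum.inr j) 1 - Pi.single (Sum.inr i) 1) := by
      unfold cc
      rw [map_mul, map_mul, map_mul, map_inv, map_inv, hfa, hfb, hfb, ← ofAdd_neg, ← ofAdd_neg, ← ofAdd_add,
        ← ofAdd_add, ← ofAdd_add]
      congr 1
      abel
    have hcol : ∀ x, (AddMonoidHom.toMultiplicative (Matrix.mulVecLin A).toAddMonoidHom)
        (Multiplicative.ofAdd (Pi.single x 1)) = Multiplicative.ofAdd (fun y => A y x) := by
      intro x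
      change Multiplicative.ofAdd (A *ᵥ Pi.single x 1) = _
      rw [Matrix.mulVec_single_one]
      rfl
    simp only [MonoidHom.comp_apply, FreeGroup.lift_apply_of]
    rcases x with k | k
    · have h2 : fh g (FreeGroup.of (Sum.inl k)) = Multiplicative.ofAdd (Pi.single (Sum.inl k) 1) := hfa k
      rw [h2, hcol]
      by_cases hi : k = i
      · subst hi
        rw [f1_ai, map_mul, hfa, hcc, ← ofAdd_add]
        congr 1
        funext y
        rcases y with l | l
        · simp [hA, T, Pi.single_apply, Matrix.one_apply]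
        · simp [hA, T, Pi.single_apply, Matrix.single_apply, hne.symm, eq_comm]
      · by_cases hj : k = j
        · subst hj
          rw [f1_aj hne, map_mul, map_inv, hfa, hcc, ← ofAdd_neg, ← ofAdd_add]
          congr 1
          funext y
          rcases y with l | l
          · simp [hA, T, Pi.single_apply, Matrix.one_apply]
          · simp [hA, T, Pi.single_apply, Matrix.single_apply, hne, eq_comm]
        · rw [f1_ak hi hj, hfa]
          congr 1
          funext y
          rcases y with l | l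
          · simp [hA, T, Pi.single_apply, Matrix.one_apply]
          · simp [hA, T, Ne.symm hi, Ne.symm hj]
    · have h2 : fh g (FreeGroup.of (Sum.inr k)) = Multiplicative.ofAdd (Pi.single (Sum.inr k) 1) := hfb k
      rw [h2, hcol]
      by_cases hi : k = i
      · subst hi
        rw [f1_bi, map_mul, map_mul, map_inv, hfb, hcc, mul_comm, ← mul_assoc, mul_inv_cancel, one_mul]
        congr 1
        funext y
        rcases y with l | l
        · simp [hA, T]
        · simp [hA, T, Pi.single_apply, Matrix.one_apply]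
      · rw [f1_bj hi, hfb]
        congr 1
        funext y
        rcases y with l | l
        · simp [hA, T]
        · simp [hA, T, Pi.single_apply, Matrix.one_apply]
  have := DFunLike.congr_fun key w
  exact congrArg Multiplicative.toAdd this

end Pool.Agent.P8H42.JF
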